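import Pool.Agent.W96.CL.Stm

set_option autoImplicit false
set_option linter.unusedVariables false

/-!
# Exact duality of the crossing probabilities at `p = 1/2`
-/

open Finset

namespace W96CL

/-- shift of a sequence -/
def dnZ (f : ℕ → ZMod 2) : ℕ → ZMod 2
  | 0 => 0
  | n + 1 => f n

/-- boundary of a chain -/
def bdZ (H V : ℕ → ℕ → ZMod 2) (j k : ℕ) : ZMod 2 :=
  H j k + V j k + dnZ (fun x => H x k) j + dnZ (fun x => V j x) k

/-- a point mass -/
def ptZ (x : ℕ × ℕ) (j k : ℕ) : ZMod 2 := if x = (j, k) then 1 else 0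

theorem z2_self (x : ZMod 2) : x + x = 0 := CharTwo.add_self_eq_zero x

theorem z2_ne {x : ZMod 2} (h : x ≠ 0) : x = 1 := by
  revert h; revert x; decide

theorem dnZ_add (f g : ℕ → ZMod 2) (n : ℕ) :
    dnZ (fun x => f x + g x) n = dnZ f n + dnZ g n := by
  cases n <;> simp [dnZ]

theorem bdZ_add (H V H' V' : ℕ → ℕ → ZMod 2) (j k : ℕ) :
    bdZ (fun x y => H x y + H' x y) (fun x y => V x y + V' x y) j k
      = bdZ H V j k + bdZ H' V' j k := by
  unfold bdZ
  rw [dnZ_add (fun x => H x k) (fun x => H' x k), dnZ_add (fun x => V j x) (fun x => V' j x)]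
  ring

theorem bdZ_hor (p q j k : ℕ) :
    bdZ (fun x y => if x = p ∧ y = q then 1 else 0) (fun _ _ => 0) j k
      = ptZ (p, q) j k + ptZ (p + 1, q) j k := by
  unfold bdZ ptZ
  have h0 : dnZ (fun _ => (0 : ZMod 2)) k = 0 := by cases k <;> rfl
  rw [h0]
  cases j with
  | zero =>
    have e1 : ¬ ((p + 1, q) = ((0, k) : ℕ × ℕ)) := by
      intro h; have := congrArg Prod.fst h; simp at this
    rw [if_neg e1]
    simp only [dnZ, Prod.mk.injEq, add_zero]
    congr 1
    exact propext ⟨fun h => ⟨h.1.symm, h.2.symm⟩, fun h => ⟨h.1.symm, h.2.symm⟩⟩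
  | succ j =>
    simp only [dnZ, Prod.mk.injEq, add_zero, Nat.add_right_cancel_iff]
    congr 1
    · congr 1
      exact propext ⟨fun h => ⟨h.1.symm, h.2.symm⟩, fun h => ⟨h.1.symm, h.2.symm⟩⟩
    · congr 1
      exact propext ⟨fun h => ⟨h.1.symm, h.2.symm⟩, fun h => ⟨h.1.symm, h.2.symm⟩⟩

theorem bdZ_ver (p q j k : ℕ) :
    bdZ (fun _ _ => 0) (fun x y => if x = p ∧ y = q then 1 else 0) j k
      = ptZ (p, q) j k + ptZ (p, q + 1) j k := by
  unfold bdZ ptZ
  have h0 : dnZ (fun _ => (0 : ZMod 2)) j = 0 := by cases j <;> rfl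
  rw [h0]
  cases k with
  | zero =>
    have e1 : ¬ ((p, q + 1) = ((j, 0) : ℕ × ℕ)) := by
      intro h; have := congrArg Prod.snd h; simp at this
    rw [if_neg e1]
    simp only [dnZ, Prod.mk.injEq, add_zero, zero_add]
    congr 1
    exact propext ⟨fun h => ⟨h.1.symm, h.2.symm⟩, fun h => ⟨h.1.symm, h.2.symm⟩⟩
  | succ k =>
    simp only [dnZ, Prod.mk.injEq, add_zero, zero_add, Nat.add_right_cancel_iff]
    congr 1
    · congr 1
      exact propext ⟨fun h => ⟨h.1.symm, h.2.symm⟩, fun h => ⟨h.1.symm, h.2.symm⟩⟩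
    · congr 1
      exact propext ⟨fun h => ⟨h.1.symm, h.2.symm⟩, fun h => ⟨h.1.symm, h.2.symm⟩⟩

/-- the chain of a path -/
theorem chain_of_path {a b : ℕ} (ω : Edg a b → Bool) {x y : ℕ × ℕ}
    (h : Relation.EqvGen (Step ω) x y) :
    ∃ H V : ℕ → ℕ → ZMod 2,
      (∀ j k, H j k ≠ 0 → ∃ (hj : j < a) (hk : k < b + 1),
        ω (Sum.inl (⟨j, hj⟩, ⟨k, hk⟩)) = true) ∧
      (∀ j k, V j k ≠ 0 → ∃ (hj : j < a + 1) (hk : k < b),
        ω (Sum.inr (⟨j, hj⟩, ⟨k, hk⟩)) = true) ∧
      ∀ j k, bdZ H V j k = ptZ x j k + ptZ y j k := by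
  induction h with
  | rel x y hxy =>
    cases hxy with
    | hor i j hij =>
      refine ⟨fun u v => if u = i.val ∧ v = j.val then 1 else 0, fun _ _ => 0, ?_, ?_, ?_⟩
      · intro u v huv
        by_cases hc : u = i.val ∧ v = j.val
        · obtain ⟨h1, h2⟩ := hc
          subst h1; subst h2
          exact ⟨i.2, j.2, hij⟩
        · exact absurd (if_neg hc) huv
      · intro u v huv
        exact absurd rfl huv
      · intro u v
        exact bdZ_hor i.val j.val u v
    | ver i j hij =>
      refine ⟨fun _ _ => 0, fun u v => if u = i.val ∧ v = j.val then 1 else 0, ?_, ?_, ?_⟩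
      · intro u v huv
        exact absurd rfl huv
      · intro u v huv
        by_cases hc : u = i.val ∧ v = j.val
        · obtain ⟨h1, h2⟩ := hc
          subst h1; subst h2
          exact ⟨i.2, j.2, hij⟩
        · exact absurd (if_neg hc) huv
      · intro u v
        exact bdZ_ver i.val j.val u v
  | refl x =>
    refine ⟨fun _ _ => 0, fun _ _ => 0, fun _ _ h => absurd rfl h, fun _ _ h => absurd rfl h, ?_⟩
    intro j k
    rw [z2_self]
    unfold bdZ
    cases j <;> cases k <;> simp [dnZ]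
  | symm x y _ ih =>
    obtain ⟨H, V, h1, h2, h3⟩ := ih
    exact ⟨H, V, h1, h2, fun j k => by rw [h3 j k, add_comm]⟩
  | trans x y z _ _ ih1 ih2 =>
    obtain ⟨H, V, h1, h2, h3⟩ := ih1
    obtain ⟨H', V', h1', h2', h3'⟩ := ih2
    refine ⟨fun u v => H u v + H' u v, fun u v => V u v + V' u v, ?_, ?_, ?_⟩
    · intro j k hjk
      by_cases hc : H j k = 0
      · refine h1' j k ?_
        intro h0
        exact hjk (by simp only [hc, h0, add_zero])
      · exact h1 j k hc
    · intro j k hjk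
      by_cases hc : V j k = 0
      · refine h2' j k ?_
        intro h0
        exact hjk (by simp only [hc, h0, add_zero])
      · exact h2 j k hc
    · intro j k
      rw [bdZ_add, h3, h3']
      have := z2_self (ptZ y j k)
      linear_combination this

/-- a function which is invariant under open steps is constant on clusters -/
theorem inv_of_path {a b : ℕ} {ω : Edg a b → Bool} {α : Type} (f : ℕ × ℕ → α)
    (hf : ∀ x y, Step ω x y → f x = f y) {x y : ℕ × ℕ}
    (h : Relation.EqvGen (Step ω) x y) : f x = f y := by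
  induction h with
  | rel x y hxy => exact hf x y hxy
  | refl x => rfl
  | symm x y _ ih => exact ih.symm
  | trans x y z _ _ ih1 ih2 => exact ih1.trans ih2

/-- telescoping sum modulo 2 -/
theorem tele (f : ℕ → ZMod 2) (n : ℕ) :
    ∑ k ∈ range n, (f k + dnZ f k) = dnZ f n := by
  induction n with
  | zero => simp [dnZ]
  | succ n ih =>
    rw [sum_range_succ, ih]
    have h := z2_self (dnZ f n)
    show dnZ f n + (f n + dnZ f n) = f n
    linear_combination h

/-- dual configurations -/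
structure DualC {a b : ℕ} (ω : Edg (a + 1) b → Bool) (ω' : Edg (b + 1) a → Bool) : Prop where
  h : ∀ (k : Fin (a + 1)) (j : Fin (b + 1)), ω' (Sum.inl (j, k)) = !(ω (Sum.inl (k, j)))
  v : ∀ (i : Fin a) (j : Fin b), ω' (Sum.inr (⟨j.val + 1, by omega⟩, i))
    = !(ω (Sum.inr (⟨i.val + 1, by omega⟩, j)))

theorem not_both {a b : ℕ} {ω : Edg (a + 1) b → Bool} {ω' : Edg (b + 1) a → Bool}
    (hd : DualC ω ω') (h1 : Cross ω) (h2 : Cross ω') : False := by
  obtain ⟨k, k', hk, hk', hpath⟩ := h2
  obtain ⟨H, V, hH, hV, hB⟩ := chain_of_path ω' hpath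
  have Vz : ∀ j, V j a = 0 := by
    intro j
    by_contra hc
    obtain ⟨_, h, _⟩ := hV j a hc
    omega
  -- boundary in the interior rows
  have hB1 : ∀ j k₁, j + 1 < b + 1 → H (j + 1) k₁ + H j k₁ = V (j + 1) k₁ + dnZ (fun x => V (j + 1) x) k₁ := by
    intro j k₁ hj
    have h := hB (j + 1) k₁
    have e1 : ptZ (0, k) (j + 1) k₁ = 0 := by
      unfold ptZ; rw [if_neg]; intro h; have := congrArg Prod.fst h; simp at this
    have e2 : ptZ (b + 1, k') (j + 1) k₁ = 0 := by
      unfold ptZ; rw [if_neg]; intro h; have := congrArg Prod.fst h; simp at this; omega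
    rw [e1, e2] at h
    unfold bdZ at h
    have h' : H (j + 1) k₁ + V (j + 1) k₁ + H j k₁ + dnZ (fun x => V (j + 1) x) k₁ = 0 := by
      simpa [dnZ] using h
    have s1 := z2_self (V (j + 1) k₁)
    have s2 := z2_self (dnZ (fun x => V (j + 1) x) k₁)
    linear_combination h' - s1 - s2
  let S : ℕ × ℕ → ZMod 2 := fun p => ∑ x ∈ range p.1, H p.2 x
  have hinv : ∀ x y, Step ω x y → S x = S y := by
    intro x y hxy
    cases hxy with
    | hor i j hij =>
      show ∑ x ∈ range i.val, H j.val x = ∑ x ∈ range (i.val + 1), H j.val x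
      rw [sum_range_succ]
      have : H j.val i.val = 0 := by
        by_contra hc
        obtain ⟨h3, h4, h5⟩ := hH j.val i.val hc
        have := hd.h i j
        rw [hij] at this
        have e : (Sum.inl (⟨j.val, h3⟩, ⟨i.val, h4⟩) : Edg (b + 1) a) = Sum.inl (j, i) := rfl
        rw [e, this] at h5
        simp at h5
      rw [this, add_zero]
    | ver i j hij =>
      show ∑ x ∈ range i.val, H j.val x = ∑ x ∈ range i.val, H (j.val + 1) x
      have e : ∑ x ∈ range i.val, H (j.val + 1) x + ∑ x ∈ range i.val, H j.val x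
          = dnZ (fun x => V (j.val + 1) x) i.val := by
        rw [← sum_add_distrib, ← tele]
        refine sum_congr rfl fun x _ => ?_
        exact hB1 j.val x (by omega)
      have z : dnZ (fun x => V (j.val + 1) x) i.val = 0 := by
        rcases Nat.eq_zero_or_pos i.val with h0 | h0
        · rw [h0]; rfl
        · obtain ⟨m, hm⟩ := Nat.exists_eq_succ_of_ne_zero h0.ne'
          rw [hm]
          show V (j.val + 1) m = 0
          by_contra hc
          obtain ⟨h3, h4, h5⟩ := hV (j.val + 1) m hc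
          have h6 := hd.v ⟨m, h4⟩ j
          have e2 : (⟨m + 1, by omega⟩ : Fin (a + 1 + 1)) = i := by
            apply Fin.ext; simp; omega
          simp only [e2] at h6
          rw [hij] at h6
          rw [h6] at h5
          simp at h5
      rw [z] at e
      have s1 := z2_self (∑ x ∈ range i.val, H j.val x)
      linear_combination s1 - e
  -- the total crossing number of a row
  have hrow : ∀ j, j < b + 1 → ∑ x ∈ range (a + 1), H j x = 1 := by
    intro j
    induction j with
    | zero =>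
      intro _
      have e : ∀ x, H 0 x = V 0 x + dnZ (fun y => V 0 y) x + ptZ (0, k) 0 x := by
        intro x
        have h := hB 0 x
        have e2 : ptZ (b + 1, k') 0 x = 0 := by
          unfold ptZ; rw [if_neg]; intro h; have := congrArg Prod.fst h; simp at this
        rw [e2] at h
        unfold bdZ at h
        have h' : H 0 x + V 0 x + dnZ (fun y => V 0 y) x = ptZ (0, k) 0 x := by
          simpa [dnZ] using h
        have s1 := z2_self (V 0 x)
        have s2 := z2_self (dnZ (fun y => V 0 y) x)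
        linear_combination h' - s1 - s2
      rw [sum_congr rfl fun x _ => e x, sum_add_distrib, tele]
      show V 0 a + _ = _
      rw [Vz, zero_add]
      rw [sum_eq_single k]
      · unfold ptZ; rw [if_pos rfl]
      · intro x _ hx
        unfold ptZ; rw [if_neg]
        intro h; have := congrArg Prod.snd h; exact hx this.symm
      · intro h; exact absurd (mem_range.2 (by omega)) h
    | succ j ih =>
      intro hj
      have h := ih (by omega)
      have e : ∑ x ∈ range (a + 1), H (j + 1) x + ∑ x ∈ range (a + 1), H j x = 0 := by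
        rw [← sum_add_distrib, sum_congr rfl fun x _ => hB1 j x hj, tele]
        exact Vz (j + 1)
      have s1 := z2_self (1 : ZMod 2)
      rw [h] at e
      linear_combination e - s1
  obtain ⟨l, l', hl, hl', hp⟩ := h1
  have h3 := inv_of_path S hinv hp
  have h4 : S (0, l) = 0 := by show ∑ x ∈ range 0, H l x = 0; simp
  have h5 : S (a + 1, l') = 1 := hrow l' (by omega)
  rw [h4, h5] at h3
  exact zero_ne_one h3

open Classical in
theorem at_least_one {a b : ℕ} {ω : Edg (a + 1) b → Bool} {ω' : Edg (b + 1) a → Bool}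
    (hd : DualC ω ω') (h1 : ¬ Cross ω) : Cross ω' := by
  by_contra h2
  -- distance to the left side
  let s : ℕ → ℕ → ZMod 2 := fun i j =>
    if ∃ l : ℕ, l ≤ b ∧ Relation.EqvGen (Step ω) (0, l) (i, j) then 0 else 1
  have s0 : ∀ j, j ≤ b → s 0 j = 0 := fun j hj =>
    if_pos ⟨j, hj, Relation.EqvGen.refl _⟩
  have s1 : ∀ j, j ≤ b → s (a + 1) j = 1 := by
    intro j hj
    refine if_neg ?_
    rintro ⟨l, hl, hp⟩
    exact h1 ⟨l, j, hl, hj, hp⟩
  have sst : ∀ i j i' j', Step ω (i, j) (i', j') → s i j = s i' j' := by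
    intro i j i' j' hst
    by_cases hc : ∃ l : ℕ, l ≤ b ∧ Relation.EqvGen (Step ω) (0, l) (i, j)
    · obtain ⟨l, hl, hp⟩ := hc
      have e1 : s i j = 0 := if_pos ⟨l, hl, hp⟩
      have e2 : s i' j' = 0 := if_pos ⟨l, hl, hp.trans _ _ _ (Relation.EqvGen.rel _ _ hst)⟩
      rw [e1, e2]
    · have e1 : s i j = 1 := if_neg hc
      have e2 : s i' j' = 1 := by
        refine if_neg ?_
        rintro ⟨l, hl, hp⟩
        exact hc ⟨l, hl, hp.trans _ _ _ ((Relation.EqvGen.rel _ _ hst).symm _ _)⟩
      rw [e1, e2]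
  let t : ℕ → ℕ → ZMod 2 := fun j k =>
    if ∃ l : ℕ, l ≤ a ∧ Relation.EqvGen (Step ω') (0, l) (j, k) then 1 else 0
  have t0 : ∀ k, k ≤ a → t 0 k = 1 := fun k hk =>
    if_pos ⟨k, hk, Relation.EqvGen.refl _⟩
  have t1 : ∀ k, k ≤ a → t (b + 1) k = 0 := by
    intro k hk
    refine if_neg ?_
    rintro ⟨l, hl, hp⟩
    exact h2 ⟨l, k, hl, hk, hp⟩
  have tst : ∀ i j i' j', Step ω' (i, j) (i', j') → t i j = t i' j' := by
    intro i j i' j' hst
    by_cases hc : ∃ l : ℕ, l ≤ a ∧ Relation.EqvGen (Step ω') (0, l) (i, j)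
    · obtain ⟨l, hl, hp⟩ := hc
      have e1 : t i j = 1 := if_pos ⟨l, hl, hp⟩
      have e2 : t i' j' = 1 := if_pos ⟨l, hl, hp.trans _ _ _ (Relation.EqvGen.rel _ _ hst)⟩
      rw [e1, e2]
    · have e1 : t i j = 0 := if_neg hc
      have e2 : t i' j' = 0 := by
        refine if_neg ?_
        rintro ⟨l, hl, hp⟩
        exact hc ⟨l, hl, hp.trans _ _ _ ((Relation.EqvGen.rel _ _ hst).symm _ _)⟩
      rw [e1, e2]
  -- horizontal primal edges
  have hh : ∀ j k, j ≤ b → k ≤ a → (t j k + t (j + 1) k) * (s k j + s (k + 1) j) = 0 := by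
    intro j k hj hk
    have hd1 := hd.h ⟨k, by omega⟩ ⟨j, by omega⟩
    cases hω : ω (Sum.inl (⟨k, by omega⟩, ⟨j, by omega⟩)) with
    | true =>
      have e := sst k j (k + 1) j (Step.hor ⟨k, by omega⟩ ⟨j, by omega⟩ hω)
      rw [e, z2_self, mul_zero]
    | false =>
      rw [hω] at hd1
      have e := tst j k (j + 1) k (Step.hor ⟨j, by omega⟩ ⟨k, by omega⟩ hd1)
      rw [e, z2_self, zero_mul]
  -- vertical primal edges
  have hv : ∀ j k, j < b → k < a →
      (t (j + 1) k + t (j + 1) (k + 1)) * (s (k + 1) j + s (k + 1) (j + 1)) = 0 := by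
    intro j k hj hk
    have hd1 := hd.v ⟨k, hk⟩ ⟨j, hj⟩
    cases hω : ω (Sum.inr (⟨k + 1, by omega⟩, ⟨j, hj⟩)) with
    | true =>
      have e := sst (k + 1) j (k + 1) (j + 1) (Step.ver ⟨k + 1, by omega⟩ ⟨j, hj⟩ hω)
      rw [e, z2_self, mul_zero]
    | false =>
      simp only at hd1
      rw [hω] at hd1
      have e := tst (j + 1) k (j + 1) (k + 1) (Step.ver ⟨j + 1, by omega⟩ ⟨k, hk⟩ hd1)
      rw [e, z2_self, zero_mul]
  -- the sums
  let A : ℕ → ZMod 2 := fun j => ∑ k ∈ range (a + 1), t j k * (s k j + s (k + 1) j)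
  have hA' : ∀ j, j ≤ b → ∑ k ∈ range (a + 1), t (j + 1) k * (s k j + s (k + 1) j) = A j := by
    intro j hj
    refine sum_congr rfl fun k hk => ?_
    have h := hh j k hj (by have := mem_range.1 hk; omega)
    have s2 := z2_self (t j k * (s k j + s (k + 1) j))
    linear_combination h - s2
  have hstep : ∀ j, j < b → A (j + 1) = A j := by
    intro j hj
    rw [← hA' j hj.le]
    -- telescoping
    have key : ∀ n, n ≤ a → ∑ k ∈ range (n + 1), t (j + 1) k * (s k (j + 1) + s (k + 1) (j + 1))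
        + ∑ k ∈ range (n + 1), t (j + 1) k * (s k j + s (k + 1) j)
        = t (j + 1) n * (s (n + 1) j + s (n + 1) (j + 1)) := by
      intro n
      induction n with
      | zero =>
        intro _
        simp only [zero_add, sum_range_one]
        rw [s0 (j + 1) (by omega), s0 j (by omega)]
        ring
      | succ n ih =>
        intro hn
        rw [sum_range_succ, sum_range_succ (fun k => t (j + 1) k * (s k j + s (k + 1) j))]
        have h3 := ih (by omega)
        have h4 := hv j n hj (by omega)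
        have s2 := z2_self (t (j + 1) n * (s (n + 1) j + s (n + 1) (j + 1)))
        linear_combination h3 + h4 - s2 + z2_self (t (j + 1) n * (s (n + 1) j + s (n + 1) (j + 1)))
    have h5 := key a le_rfl
    rw [s1 j hj.le, s1 (j + 1) hj, z2_self, mul_zero] at h5
    have s2 := z2_self (∑ k ∈ range (a + 1), t (j + 1) k * (s k j + s (k + 1) j))
    show ∑ k ∈ range (a + 1), t (j + 1) k * (s k (j + 1) + s (k + 1) (j + 1)) = _
    linear_combination h5 - s2
  have hA : ∀ j, j ≤ b → A j = A 0 := by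
    intro j
    induction j with
    | zero => intro _; rfl
    | succ j ih => intro hj; rw [hstep j hj, ih (by omega)]
  have hA0 : A 0 = 1 := by
    have key : ∀ n, ∑ k ∈ range n, (s k 0 + s (k + 1) 0) = s 0 0 + s n 0 := by
      intro n
      induction n with
      | zero => simp [z2_self]
      | succ n ih =>
        rw [sum_range_succ, ih]
        linear_combination z2_self (s n 0)
    have e : A 0 = ∑ k ∈ range (a + 1), (s k 0 + s (k + 1) 0) := by
      refine sum_congr rfl fun k hk => ?_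
      rw [t0 k (by have := mem_range.1 hk; omega), one_mul]
    rw [e, key, s0 0 (Nat.zero_le _), s1 0 (Nat.zero_le _), zero_add]
  have hAb : A b = 0 := by
    rw [← hA' b le_rfl]
    refine sum_eq_zero fun k hk => ?_
    rw [t1 k (by have := mem_range.1 hk; omega), zero_mul]
  rw [hA b le_rfl, hA0] at hAb
  exact one_ne_zero hAb

theorem dual_iff {a b : ℕ} {ω : Edg (a + 1) b → Bool} {ω' : Edg (b + 1) a → Bool}
    (hd : DualC ω ω') : Cross ω ↔ ¬ Cross ω' :=
  ⟨fun h1 h2 => not_both hd h1 h2, fun h2 => by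
    by_contra h1
    exact h2 (at_least_one hd h1)⟩

/-- averages of functions of part of the coordinates -/
theorem avg_comp {E C : Type} [Fintype E] [DecidableEq E] [Fintype C] [DecidableEq C] (c : C → E)
    (hc : Function.Injective c) (F : (C → Bool) → ℝ) :
    (1 / 2 : ℝ) ^ Fintype.card E * ∑ ω : E → Bool, F (fun x => ω (c x))
      = (1 / 2 : ℝ) ^ Fintype.card C * ∑ η : C → Bool, F η := by
  classical
  let e1 : (E → Bool) ≃ (({x : E // x ∈ Set.range c}) → Bool) × (({x : E // ¬ x ∈ Set.range c}) → Bool) :=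
    Equiv.piEquivPiSubtypeProd (fun x => x ∈ Set.range c) (fun _ => Bool)
  let e2 : C ≃ {x : E // x ∈ Set.range c} := Equiv.ofInjective c hc
  let D : Type := {x : E // ¬ x ∈ Set.range c}
  have h1 : ∑ ω : E → Bool, F (fun x => ω (c x))
      = ∑ p : (({x : E // x ∈ Set.range c}) → Bool) × (({x : E // ¬ x ∈ Set.range c}) → Bool),
        F (fun x => p.1 (e2 x)) := by
    refine Fintype.sum_equiv e1 _ _ fun ω => ?_
    rfl
  have h2 : ∑ p : (({x : E // x ∈ Set.range c}) → Bool) × (({x : E // ¬ x ∈ Set.range c}) → Bool),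
        F (fun x => p.1 (e2 x))
      = (2 : ℝ) ^ Fintype.card D * ∑ η : C → Bool, F η := by
    rw [Fintype.sum_prod_type]
    simp only [sum_const, card_univ, Fintype.card_fun, Fintype.card_bool, nsmul_eq_mul]
    rw [← mul_sum]
    push_cast
    congr 1
    refine Fintype.sum_equiv (Equiv.arrowCongr e2.symm (Equiv.refl Bool)) _ _ fun u => ?_
    rfl
  have h3 : Fintype.card E = Fintype.card C + Fintype.card D := by
    have h4 := Fintype.card_congr (Equiv.sumCompl (fun x : E => x ∈ Set.range c))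
    rw [Fintype.card_sum] at h4
    rw [← h4, Fintype.card_congr e2]
  rw [h1, h2, h3, pow_add]
  have h5 : (1 / 2 : ℝ) ^ Fintype.card D * 2 ^ Fintype.card D = 1 := by
    rw [← mul_pow]; norm_num
  linear_combination (1 / 2 : ℝ) ^ Fintype.card C * (∑ η : C → Bool, F η) * h5

theorem wgt_half {a b : ℕ} (ω : Edg a b → Bool) :
    wgt (1 / 2) ω = (1 / 2 : ℝ) ^ Fintype.card (Edg a b) := by
  unfold wgt
  have h1 : ∀ e : Fin a × Fin (b + 1),
      (if ω (Sum.inl e) = true then (1 / 2 : ℝ) else 1 - 1 / 2) = 1 / 2 := by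
    intro e; split_ifs <;> norm_num
  have h2 : ∀ e : Fin (a + 1) × Fin b,
      (if ω (Sum.inr e) = true then (1 - 1 / 2 : ℝ) else 1 / 2) = 1 / 2 := by
    intro e; split_ifs <;> norm_num
  rw [prod_congr rfl fun e _ => h1 e, prod_congr rfl fun e _ => h2 e, prod_const, prod_const,
    card_univ, card_univ, ← pow_add, Fintype.card_sum]

/-- the relevant edges -/
abbrev Core (a b : ℕ) := (Fin (a + 1) × Fin (b + 1)) ⊕ (Fin a × Fin b)

def core1 (a b : ℕ) : Core a b → Edg (a + 1) b
  | Sum.inl (k, j) => Sum.inl (k, j)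
  | Sum.inr (i, j) => Sum.inr (⟨i.val + 1, by omega⟩, j)

def core2 (a b : ℕ) : Core a b → Edg (b + 1) a
  | Sum.inl (k, j) => Sum.inl (j, k)
  | Sum.inr (i, j) => Sum.inr (⟨j.val + 1, by omega⟩, i)

theorem core1_inj (a b : ℕ) : Function.Injective (core1 a b) := by
  rintro (⟨k, j⟩ | ⟨i, j⟩) (⟨k', j'⟩ | ⟨i', j'⟩) h
  · simpa [core1] using h
  · simp [core1] at h
  · simp [core1] at h
  · simp only [core1, Sum.inr.injEq, Prod.mk.injEq, Fin.mk.injEq] at h
    have : i = i' := Fin.ext (by omega)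
    rw [this, h.2]

theorem core2_inj (a b : ℕ) : Function.Injective (core2 a b) := by
  rintro (⟨k, j⟩ | ⟨i, j⟩) (⟨k', j'⟩ | ⟨i', j'⟩) h
  · simp only [core2, Sum.inl.injEq, Prod.mk.injEq] at h
    rw [h.1, h.2]
  · simp [core2] at h
  · simp [core2] at h
  · simp only [core2, Sum.inr.injEq, Prod.mk.injEq, Fin.mk.injEq] at h
    have : j = j' := Fin.ext (by omega)
    rw [this, h.2]

theorem dualC_of {a b : ℕ} {ω : Edg (a + 1) b → Bool} {ω' : Edg (b + 1) a → Bool}
    (h : ∀ x, ω' (core2 a b x) = !(ω (core1 a b x))) : DualC ω ω' :=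
  ⟨fun k j => h (Sum.inl (k, j)), fun i j => h (Sum.inr (i, j))⟩

open Classical in
theorem cl_dual : S_dual := by
  intro a b
  let P : (Core a b → Bool) → Prop := fun η =>
    ∃ ω : Edg (a + 1) b → Bool, (∀ x, ω (core1 a b x) = η x) ∧ Cross ω
  let P' : (Core a b → Bool) → Prop := fun η =>
    ∃ ω : Edg (b + 1) a → Bool, (∀ x, ω (core2 a b x) = η x) ∧ Cross ω
  have ex1 : ∀ η : Core a b → Bool, ∃ ω : Edg (a + 1) b → Bool, ∀ x, ω (core1 a b x) = η x := by
    intro η
    obtain ⟨ω, hω⟩ := (core1_inj a b).surjective_comp_right (γ := Bool) η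
    exact ⟨ω, fun x => congrFun hω x⟩
  have ex2 : ∀ η : Core a b → Bool, ∃ ω : Edg (b + 1) a → Bool, ∀ x, ω (core2 a b x) = η x := by
    intro η
    obtain ⟨ω, hω⟩ := (core2_inj a b).surjective_comp_right (γ := Bool) η
    exact ⟨ω, fun x => congrFun hω x⟩
  have c1 : ∀ ω : Edg (a + 1) b → Bool, Cross ω ↔ P (fun x => ω (core1 a b x)) := by
    intro ω
    refine ⟨fun h => ⟨ω, fun _ => rfl, h⟩, ?_⟩
    rintro ⟨ω1, h1, h2⟩
    obtain ⟨ω', h3⟩ := ex2 (fun x => !(ω (core1 a b x)))
    have d1 : DualC ω ω' := dualC_of h3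
    have d2 : DualC ω1 ω' := dualC_of fun x => by rw [h3 x, h1 x]
    rw [dual_iff d1]
    exact (dual_iff d2).1 h2
  have c2 : ∀ ω' : Edg (b + 1) a → Bool, Cross ω' ↔ P' (fun x => ω' (core2 a b x)) := by
    intro ω'
    refine ⟨fun h => ⟨ω', fun _ => rfl, h⟩, ?_⟩
    rintro ⟨ω1, h1, h2⟩
    obtain ⟨ω, h3⟩ := ex1 (fun x => !(ω' (core2 a b x)))
    have d1 : DualC ω ω' := dualC_of fun x => by rw [h3 x, Bool.not_not]
    have d2 : DualC ω ω1 := dualC_of fun x => by rw [h3 x, h1 x, Bool.not_not]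
    by_contra hn
    exact (dual_iff d2).1 ((dual_iff d1).2 hn) h2
  have c3 : ∀ η : Core a b → Bool, P η ↔ ¬ P' (fun x => !(η x)) := by
    intro η
    obtain ⟨ω, h1⟩ := ex1 η
    obtain ⟨ω', h2⟩ := ex2 (fun x => !(η x))
    have d : DualC ω ω' := dualC_of fun x => by rw [h2 x, h1 x]
    have e1 : (fun x => ω (core1 a b x)) = η := funext h1
    have e2 : (fun x => ω' (core2 a b x)) = fun x => !(η x) := funext h2
    have f1 := c1 ω
    have f2 := c2 ω'
    rw [e1] at f1
    rw [e2] at f2
    rw [← f1, ← f2]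
    exact dual_iff d
  have s1 : prob (1 / 2) (a + 1) b
      = (1 / 2 : ℝ) ^ Fintype.card (Core a b) * ∑ η : Core a b → Bool, (if P η then (1 : ℝ) else 0) := by
    rw [← avg_comp (core1 a b) (core1_inj a b) (fun η => if P η then (1 : ℝ) else 0), mul_sum]
    unfold prob
    refine sum_congr rfl fun ω _ => ?_
    rw [wgt_half]
    by_cases h : Cross ω
    · rw [if_pos h, if_pos ((c1 ω).1 h), mul_one]
    · rw [if_neg h, if_neg (fun h' => h ((c1 ω).2 h')), mul_zero]
  have s2 : prob (1 / 2) (b + 1) a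
      = (1 / 2 : ℝ) ^ Fintype.card (Core a b) * ∑ η : Core a b → Bool, (if P' η then (1 : ℝ) else 0) := by
    rw [← avg_comp (core2 a b) (core2_inj a b) (fun η => if P' η then (1 : ℝ) else 0), mul_sum]
    unfold prob
    refine sum_congr rfl fun ω _ => ?_
    rw [wgt_half]
    by_cases h : Cross ω
    · rw [if_pos h, if_pos ((c2 ω).1 h), mul_one]
    · rw [if_neg h, if_neg (fun h' => h ((c2 ω).2 h')), mul_zero]
  let nt : (Core a b → Bool) ≃ (Core a b → Bool) :=
    { toFun := fun η x => !(η x)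
      invFun := fun η x => !(η x)
      left_inv := fun η => funext fun x => Bool.not_not _
      right_inv := fun η => funext fun x => Bool.not_not _ }
  have s3 : ∑ η : Core a b → Bool, (if P' η then (1 : ℝ) else 0)
      = ∑ η : Core a b → Bool, (if P' (nt η) then (1 : ℝ) else 0) :=
    (Equiv.sum_comp nt (fun η => if P' η then (1 : ℝ) else 0)).symm
  rw [s1, s2, s3, ← mul_add, ← sum_add_distrib]
  have s4 : ∀ η : Core a b → Bool,
      (if P η then (1 : ℝ) else 0) + (if P' (nt η) then (1 : ℝ) else 0) = 1 := by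
    intro η
    have h : P η ↔ ¬ P' (nt η) := c3 η
    by_cases h' : P η
    · rw [if_pos h', if_neg (h.1 h'), add_zero]
    · rw [if_neg h', if_pos (by by_contra hn; exact h' (h.2 hn)), zero_add]
  rw [sum_congr rfl fun η _ => s4 η, sum_const, card_univ, Fintype.card_fun, Fintype.card_bool,
    nsmul_eq_mul, mul_one]
  push_cast
  rw [← mul_pow]
  norm_num

end W96CL
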